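import Pool.Agent.Y472.J.Defs
import Pool.Agent.Y482.Cz.Arg
import Pool.Agent.Y481.Wm

/-! CB3-J: PTZ, SZE, UQZ (job 2376, helper929 for helper472) -/

set_option autoImplicit false

namespace Pool.Agent.Y929.CJ

open Finset Filter Topology Metric
open Pool.Agent.W711.HT
open Pool.Agent.Y472
open scoped Real

/-! ### PTZ -/

lemma gh_re_nonpos {χ : ℂ} (h1 : -π < χ.re) (h2 : χ.re ≤ 0) : (gh χ).re ≤ 0 := by
  unfold gh
  rw [Complex.log_re]
  refine Real.log_nonpos (norm_nonneg _) ?_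
  rw [norm_div]
  have hw : (Complex.sin (χ / 2)).re ≤ 0 := by
    rw [Complex.sin_eq]
    have e1 : (χ / 2).re = χ.re / 2 := by
      rw [show χ / 2 = χ / ((2 : ℝ) : ℂ) by norm_num, Complex.div_ofReal_re]
    have e2 : ∀ a b c d : ℝ, ((Complex.sin (a : ℂ)) * (Complex.cosh (b : ℂ)) +
        (Complex.cos (c : ℂ)) * (Complex.sinh (d : ℂ)) * Complex.I).re = Real.sin a * Real.cosh b := by
      intro a b c d
      rw [← Complex.ofReal_sin, ← Complex.ofReal_cosh, ← Complex.ofReal_cos, ← Complex.ofReal_sinh]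
      simp only [Complex.add_re, Complex.mul_re, Complex.ofReal_re, Complex.ofReal_im, Complex.I_re,
        Complex.I_im, Complex.mul_im]
      ring
    rw [e2, e1]
    have e3 : Real.sin (χ.re / 2) ≤ 0 := by
      refine Real.sin_nonpos_of_nonpos_of_neg_pi_le (by linarith) (by linarith [Real.pi_pos])
    exact mul_nonpos_of_nonpos_of_nonneg e3 (Real.cosh_pos _).le
  set w := Complex.sin (χ / 2) with hwdef
  have hc : ‖Complex.cos (χ / 2)‖ * ‖Complex.cos (χ / 2)‖ = ‖1 - w‖ * ‖1 + w‖ := by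
    rw [← norm_mul, ← norm_mul]
    congr 1
    have := Complex.sin_sq_add_cos_sq (χ / 2)
    rw [← hwdef] at this
    linear_combination this
  have hle : ‖1 + w‖ ≤ ‖1 - w‖ := by
    rw [← sq_le_sq₀ (norm_nonneg _) (norm_nonneg _), ← Complex.normSq_eq_norm_sq,
      ← Complex.normSq_eq_norm_sq, Complex.normSq_apply, Complex.normSq_apply]
    simp only [Complex.add_re, Complex.add_im, Complex.sub_re, Complex.sub_im, Complex.one_re,
      Complex.one_im]
    nlinarith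
  have hle2 : ‖1 + w‖ ≤ ‖Complex.cos (χ / 2)‖ := by
    refine (mul_self_le_mul_self_iff (norm_nonneg _) (norm_nonneg _)).2 ?_
    rw [hc]
    exact mul_le_mul_of_nonneg_right hle (norm_nonneg _)
  exact div_le_one_of_le₀ hle2 (norm_nonneg _)

lemma gh_im_nonneg {y : ℝ} (hy : 0 ≤ y) : 0 ≤ (gh (y * Complex.I)).im := by
  unfold gh
  rw [Complex.log_im, Complex.arg_nonneg_iff]
  have e1 : (y : ℂ) * Complex.I / 2 = ((y / 2 : ℝ) : ℂ) * Complex.I := by push_cast; ring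
  rw [e1, Complex.sin_mul_I, Complex.cos_mul_I, ← Complex.ofReal_sinh, ← Complex.ofReal_cosh,
    Complex.div_ofReal_im]
  simp only [Complex.add_im, Complex.one_im, Complex.mul_im, Complex.ofReal_re, Complex.I_im,
    Complex.ofReal_im, Complex.I_re, mul_one, mul_zero, add_zero, zero_add]
  exact div_nonneg (Real.sinh_nonneg_iff.2 (by linarith)) (Real.cosh_pos _).le

theorem ptz : S_PTZ := by
  intro hS χ₀ hZ hb η hη hη2
  obtain ⟨H1, -, H3, -, -⟩ := hS
  obtain ⟨z1, z2, z3, z4⟩ := hZ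
  have hpi := Real.pi_pos
  have hder : ∀ χ : ℂ, |χ.re| < π → HasDerivAt s0 (-(1 / π) * gh χ) χ := fun χ h => (H1 χ h).1
  -- the vertical part
  have hv : ∀ y : ℝ, 0 ≤ y → bet ≤ (s0 (y * Complex.I)).re := by
    intro y hy
    have hmono : MonotoneOn (fun y : ℝ => (s0 (y * Complex.I)).re) (Set.Ici 0) := by
      have hd : ∀ y : ℝ, HasDerivAt (fun y : ℝ => (s0 (y * Complex.I)).re)
          (1 / π * (gh (y * Complex.I)).im) y := by
        intro y
        have h0 : HasDerivAt (fun y : ℝ => (y : ℂ) * Complex.I) Complex.I y := by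
          simpa using (Complex.ofRealCLM.hasDerivAt (x := y)).mul_const Complex.I
        have h1 := (hder (y * Complex.I) (by simp [hpi])).comp y h0
        have h2 := (Complex.reCLM.hasFDerivAt (x := s0 (y * Complex.I))).comp_hasDerivAt y h1
        refine h2.congr_deriv ?_
        simp only [Complex.reCLM_apply]
        rw [show (-(1 / (π : ℂ)) * gh (y * Complex.I) * Complex.I) =
          ((-(1 / π) : ℝ) : ℂ) * (gh (y * Complex.I) * Complex.I) by push_cast; ring,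
          Complex.re_ofReal_mul, Complex.mul_I_re]
        ring
      refine monotoneOn_of_deriv_nonneg (convex_Ici 0)
        (fun y _ => (hd y).continuousAt.continuousWithinAt)
        (fun y _ => (hd y).differentiableAt.differentiableWithinAt) ?_
      intro y hy
      rw [interior_Ici] at hy
      rw [(hd y).deriv]
      exact mul_nonneg (by positivity) (gh_im_nonneg (le_of_lt hy))
    have h1 := hmono (Set.mem_Ici.2 le_rfl) (Set.mem_Ici.2 hy) hy
    simp only [Complex.ofReal_zero, zero_mul] at h1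
    rw [H3, Complex.ofReal_re] at h1
    have h2 := Pool.Agent.Y481.bet_pos
    linarith
  -- the horizontal part
  have hh : ∀ x : ℝ, χ₀.re ≤ x → x ≤ 0 → bet ≤ (s0 (x + χ₀.im * Complex.I)).re := by
    intro x hx1 hx2
    have hmono : MonotoneOn (fun x : ℝ => (s0 (x + χ₀.im * Complex.I)).re) (Set.Icc χ₀.re 0) := by
      have hd : ∀ x : ℝ, |x| < π → HasDerivAt (fun x : ℝ => (s0 (x + χ₀.im * Complex.I)).re)
          (-(1 / π) * (gh (x + χ₀.im * Complex.I)).re) x := by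
        intro x hx
        have h0 : HasDerivAt (fun x : ℝ => (x : ℂ) + χ₀.im * Complex.I) 1 x := by
          simpa using (Complex.ofRealCLM.hasDerivAt (x := x)).add_const ((χ₀.im : ℂ) * Complex.I)
        have h1 := (hder (x + χ₀.im * Complex.I) (by simpa using hx)).comp x h0
        have h2 := (Complex.reCLM.hasFDerivAt (x := s0 (x + χ₀.im * Complex.I))).comp_hasDerivAt x h1
        refine h2.congr_deriv ?_
        simp only [Complex.reCLM_apply, mul_one]
        rw [show (-(1 / (π : ℂ)) * gh (x + χ₀.im * Complex.I)) =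
          ((-(1 / π) : ℝ) : ℂ) * (gh (x + χ₀.im * Complex.I)) by push_cast; ring,
          Complex.re_ofReal_mul]
      have hx : ∀ x ∈ Set.Icc χ₀.re 0, |x| < π := by
        intro x hx
        rw [abs_lt]
        constructor <;> linarith [hx.1, hx.2]
      refine monotoneOn_of_deriv_nonneg (convex_Icc _ _)
        (fun x h => (hd x (hx x h)).continuousAt.continuousWithinAt)
        (fun x h => (hd x (hx x (interior_subset h))).differentiableAt.differentiableWithinAt) ?_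
      intro x h
      have h' := interior_subset h
      rw [(hd x (hx x h')).deriv]
      have h3 : (gh (x + χ₀.im * Complex.I)).re ≤ 0 := by
        refine gh_re_nonpos ?_ ?_
        · simp only [Complex.add_re, Complex.ofReal_re, Complex.mul_re, Complex.I_re, mul_zero,
            Complex.ofReal_im, Complex.I_im, mul_one, sub_self, add_zero]
          linarith [h'.1]
        · simp only [Complex.add_re, Complex.ofReal_re, Complex.mul_re, Complex.I_re, mul_zero,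
            Complex.ofReal_im, Complex.I_im, mul_one, sub_self, add_zero]
          exact h'.2
      have h4 : 0 < 1 / π := by positivity
      nlinarith
    have h1 := hmono (Set.mem_Icc.2 ⟨le_rfl, z2⟩) (Set.mem_Icc.2 ⟨hx1, hx2⟩) hx1
    have h2 : ((χ₀.re : ℂ) + χ₀.im * Complex.I) = χ₀ := Complex.re_add_im χ₀
    simp only [h2] at h1
    linarith
  refine ⟨(fun x : ℝ => (x : ℂ) + χ₀.im * Complex.I) '' Set.Icc χ₀.re 0 ∪
    (fun y : ℝ => (y : ℂ) * Complex.I) '' Set.Icc η χ₀.im, ?_, ?_, ?_, ?_, ?_⟩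
  · refine IsCompact.union ?_ ?_
    · exact isCompact_Icc.image (by fun_prop)
    · exact isCompact_Icc.image (by fun_prop)
  · refine IsConnected.union ?_ ?_ ?_
    · refine ⟨χ₀.im * Complex.I, ⟨0, ⟨z2, le_rfl⟩, by simp⟩, ⟨χ₀.im, ⟨hη2, le_rfl⟩, rfl⟩⟩
    · exact (isConnected_Icc z2).image _ (by fun_prop)
    · exact (isConnected_Icc hη2).image _ (by fun_prop)
  · left
    exact ⟨χ₀.re, ⟨le_rfl, z2⟩, Complex.re_add_im χ₀⟩
  · right
    exact ⟨η, ⟨le_rfl, hη2⟩, rfl⟩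
  · rintro χ (⟨x, hx, rfl⟩ | ⟨y, hy, rfl⟩)
    · refine ⟨⟨?_, ?_, ?_, ?_⟩, hh x hx.1 hx.2⟩
      · simp
        linarith [hx.1]
      · simp
        exact hx.2
      · simpa using z3
      · simpa using z4
    · refine ⟨⟨?_, ?_, ?_, ?_⟩, hv y (by linarith [hy.1])⟩
      · simp
        linarith
      · simp
      · simp
        linarith [hy.1]
      · simp
        linarith [hy.2]

/-! ### SZE -/

theorem sze : S_SZE := by
  intro ρ₀ c C s dl h χ₀ ρ₁ c₁ C₁ h' ψ ψ' χ a1 a2 a3 b1 b2 b3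
  have hpi := Real.pi_pos
  have hd : dl ψ ψ' χ = dzz ψ ψ' χ := by
    have e1 : Complex.cos (2 * π * dl ψ ψ' χ) = Complex.cos (2 * π * dzz ψ ψ' χ) := by
      rw [h.dcos ψ a1 ψ' a2 χ a3, h'.dcos ψ b1 ψ' b2 χ b3]
    have key : ∀ x : ℂ, ‖x - 1 / 4‖ ≤ 1 / 8 → 0 < (2 * π * x).re ∧ (2 * π * x).re < π := by
      intro x hx
      have h1 := (Complex.abs_re_le_norm _).trans hx
      have h2 : (x - 1 / 4).re = x.re - 1 / 4 := by
        rw [Complex.sub_re]
        norm_num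
      rw [h2, abs_le] at h1
      have h3 : (2 * (π : ℂ) * x).re = 2 * π * x.re := by
        rw [show (2 * (π : ℂ) * x) = ((2 * π : ℝ) : ℂ) * x by push_cast; ring, Complex.re_ofReal_mul]
      rw [h3]
      constructor <;> nlinarith [h1.1, h1.2]
    have e2 := Pool.Agent.Y482.Cz.cos_unique' (key _ ((h.dclose ψ a1 ψ' a2 χ a3).1.trans (by norm_num)))
      (key _ (h'.dclose ψ b1 ψ' b2 χ b3)) e1
    have e3 : (2 * (π : ℂ)) ≠ 0 := by
      simp [hpi.ne']
    exact mul_left_cancel₀ e3 e2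
  rw [h.scrit ψ a1 ψ' a2 χ a3, h'.scrit ψ b1 ψ' b2 χ b3, hd]

/-! ### UQZ -/

lemma ball_sub {ρ r s : ℝ} {v w : ℂ} (hv : v ∈ Rc s s) (hw : ‖w - v‖ ≤ r) (h : s + r ≤ ρ) :
    w ∈ Rc ρ ρ := by
  obtain ⟨h1, h2⟩ := hv
  have h3 := (Complex.abs_re_le_norm (w - v)).trans hw
  have h4 := (Complex.abs_im_le_norm (w - v)).trans hw
  rw [Complex.sub_re] at h3
  rw [Complex.sub_im] at h4
  rw [abs_lt] at h1 h2
  rw [abs_le] at h3 h4
  refine ⟨abs_lt.2 ⟨?_, ?_⟩, abs_lt.2 ⟨?_, ?_⟩⟩ <;> linarith [h1.1, h1.2, h2.1, h2.2, h3.1, h3.2, h4.1, h4.2]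

/-- Cauchy's estimate on a smaller box -/
lemma cau {ρ s C : ℝ} (hs : s < ρ) {f : ℂ → ℂ} (hf : DifferentiableOn ℂ f (Rc ρ ρ))
    (hb : ∀ z ∈ Rc ρ ρ, ‖f z‖ ≤ C) {v : ℂ} (hv : v ∈ Rc s s) : ‖deriv f v‖ ≤ C / (ρ - s) := by
  have h0 : 0 < ρ - s := by linarith
  refine Complex.norm_deriv_le_of_forall_mem_sphere_norm_le h0 ?_ ?_
  · refine DifferentiableOn.diffContOnCl ?_
    rw [closure_ball v h0.ne']
    refine hf.mono fun w hw => ?_
    rw [mem_closedBall, dist_eq_norm] at hw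
    exact ball_sub hv hw (by linarith)
  · intro z hz
    rw [mem_sphere, dist_eq_norm] at hz
    exact hb z (ball_sub hv hz.le (by linarith))

lemma Rc_open (a b : ℝ) : IsOpen (Rc a b) := by
  have h1 : Continuous fun z : ℂ => |z.re| := Complex.continuous_re.abs
  have h2 : Continuous fun z : ℂ => |z.im| := Complex.continuous_im.abs
  exact (isOpen_lt h1 continuous_const).inter (isOpen_lt h2 continuous_const)

lemma Rc_convex (a b : ℝ) : Convex ℝ (Rc a b) := by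
  intro x hx y hy s t hs ht hst
  obtain ⟨h1, h2⟩ := hx
  obtain ⟨h3, h4⟩ := hy
  rw [abs_lt] at h1 h2 h3 h4
  have key : ∀ p q r : ℝ, -r < p → p < r → -r < q → q < r → -r < s * p + t * q ∧ s * p + t * q < r := by
    intro p q r k1 k2 k3 k4
    rcases hs.lt_or_eq with hs' | hs'
    · constructor
      · have := mul_lt_mul_of_pos_left k1 hs'
        have := mul_le_mul_of_nonneg_left k3.le ht
        have e : s * -r + t * -r = -r := by rw [← add_mul, hst, one_mul]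
        linarith
      · have := mul_lt_mul_of_pos_left k2 hs'
        have := mul_le_mul_of_nonneg_left k4.le ht
        have e : s * r + t * r = r := by rw [← add_mul, hst, one_mul]
        linarith
    · have ht1 : t = 1 := by linarith
      rw [← hs', ht1]
      constructor <;> linarith
  refine ⟨abs_lt.2 ?_, abs_lt.2 ?_⟩
  · simpa using key _ _ _ h1.1 h1.2 h3.1 h3.2
  · simpa using key _ _ _ h2.1 h2.2 h4.1 h4.2

/-- Lipschitz bound on a smaller box -/
lemma lip {ρ s C : ℝ} (hs : s < ρ) {f : ℂ → ℂ} (hf : DifferentiableOn ℂ f (Rc ρ ρ))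
    (hb : ∀ z ∈ Rc ρ ρ, ‖f z‖ ≤ C) {u v : ℂ} (hu : u ∈ Rc s s) (hv : v ∈ Rc s s) :
    ‖f u - f v‖ ≤ C / (ρ - s) * ‖u - v‖ := by
  have hsub : ∀ z ∈ Rc s s, z ∈ Rc ρ ρ := fun z hz => ⟨hz.1.trans hs, hz.2.trans hs⟩
  exact (Rc_convex s s).norm_image_sub_le_of_norm_deriv_le
    (fun z hz => (hf z (hsub z hz)).differentiableAt ((Rc_open ρ ρ).mem_nhds (hsub z hz)))
    (fun z hz => cau hs hf hb hz) hv hu

/-- Lipschitz bound of the partial derivatives -/
lemma lip2 {ρ C : ℝ} (hρ : 0 < ρ) {σ : ℂ → ℂ → ℂ}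
    (hσ : DifferentiableOn ℂ (fun p : ℂ × ℂ => σ p.1 p.2) (Rc ρ ρ ×ˢ Rc ρ ρ))
    (hb : ∀ ψ ∈ Rc ρ ρ, ∀ ψ' ∈ Rc ρ ρ, ‖σ ψ ψ'‖ ≤ C) {u v u' v' : ℂ} (hu : u ∈ Rc (ρ / 2) (ρ / 2))
    (hv : v ∈ Rc (ρ / 2) (ρ / 2)) (hu' : u' ∈ Rc (ρ / 2) (ρ / 2)) (hv' : v' ∈ Rc (ρ / 2) (ρ / 2)) :
    ‖deriv (fun w => σ u w) v - deriv (fun w => σ u' w) v'‖ ≤
      16 * C / ρ ^ 2 * (‖u - u'‖ + ‖v - v'‖) := by
  have hsub : ∀ s, s ≤ ρ → ∀ z ∈ Rc s s, z ∈ Rc ρ ρ := fun s hs z hz =>
    ⟨hz.1.trans_le hs, hz.2.trans_le hs⟩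
  have hC : 0 ≤ C := (norm_nonneg _).trans (hb u (hsub _ (by linarith) u hu) v (hsub _ (by linarith) v hv))
  have hs1 : ∀ a ∈ Rc ρ ρ, DifferentiableOn ℂ (fun w => σ a w) (Rc ρ ρ) := by
    intro a ha
    refine hσ.comp (f := fun w : ℂ => ((a, w) : ℂ × ℂ)) ?_ fun w hw => ⟨ha, hw⟩
    exact ((differentiable_const a).prodMk differentiable_id).differentiableOn
  have hs2 : ∀ b ∈ Rc ρ ρ, DifferentiableOn ℂ (fun w => σ w b) (Rc ρ ρ) := by
    intro b hb'
    refine hσ.comp (f := fun w : ℂ => ((w, b) : ℂ × ℂ)) ?_ fun w hw => ⟨hw, hb'⟩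
    exact (differentiable_id.prodMk (differentiable_const b)).differentiableOn
  have huR := hsub _ (by linarith) u hu
  have huR' := hsub _ (by linarith) u' hu'
  have hvR := hsub _ (by linarith) v hv
  -- the second variable
  have k1 : ‖deriv (fun w => σ u' w) v - deriv (fun w => σ u' w) v'‖ ≤ 16 * C / ρ ^ 2 * ‖v - v'‖ := by
    have h1 : DifferentiableOn ℂ (deriv fun w => σ u' w) (Rc (3 * ρ / 4) (3 * ρ / 4)) :=
      ((hs1 u' huR').deriv (Rc_open ρ ρ)).mono fun z hz => hsub _ (by linarith) z hz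
    have h2 : ∀ z ∈ Rc (3 * ρ / 4) (3 * ρ / 4), ‖deriv (fun w => σ u' w) z‖ ≤ C / (ρ - 3 * ρ / 4) :=
      fun z hz => cau (by linarith) (hs1 u' huR') (fun w hw => hb u' huR' w hw) hz
    have h3 := lip (s := ρ / 2) (by linarith) h1 h2 hv hv'
    refine h3.trans (le_of_eq ?_)
    field_simp
    ring
  -- the first variable
  have k2 : ‖deriv (fun w => σ u w) v - deriv (fun w => σ u' w) v‖ ≤ 16 * C / ρ ^ 2 * ‖u - u'‖ := by
    have h1 : DifferentiableOn ℂ (fun w => σ u w - σ u' w) (Rc (3 * ρ / 4) (3 * ρ / 4)) :=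
      ((hs1 u huR).sub (hs1 u' huR')).mono fun z hz => hsub _ (by linarith) z hz
    have h2 : ∀ z ∈ Rc (3 * ρ / 4) (3 * ρ / 4), ‖σ u z - σ u' z‖ ≤ C / (ρ - 3 * ρ / 4) * ‖u - u'‖ := by
      intro z hz
      have hzR := hsub _ (by linarith) z hz
      have hu2 : u ∈ Rc (3 * ρ / 4) (3 * ρ / 4) := ⟨hu.1.trans (by linarith), hu.2.trans (by linarith)⟩
      have hu2' : u' ∈ Rc (3 * ρ / 4) (3 * ρ / 4) :=
        ⟨hu'.1.trans (by linarith), hu'.2.trans (by linarith)⟩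
      exact lip (f := fun a => σ a z) (by linarith) (hs2 z hzR) (fun a ha => hb a ha z hzR) hu2 hu2'
    have h3 := cau (s := ρ / 2) (by linarith) h1 h2 hv
    have hd1 : DifferentiableAt ℂ (fun w => σ u w) v :=
      ((hs1 u huR) v hvR).differentiableAt ((Rc_open ρ ρ).mem_nhds hvR)
    have hd2 : DifferentiableAt ℂ (fun w => σ u' w) v :=
      ((hs1 u' huR') v hvR).differentiableAt ((Rc_open ρ ρ).mem_nhds hvR)
    have h4 : deriv (fun w => σ u w - σ u' w) v = deriv (fun w => σ u w) v - deriv (fun w => σ u' w) v :=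
      deriv_sub hd1 hd2
    rw [h4] at h3
    refine h3.trans (le_of_eq ?_)
    field_simp
    ring
  calc _ = ‖(deriv (fun w => σ u w) v - deriv (fun w => σ u' w) v) +
        (deriv (fun w => σ u' w) v - deriv (fun w => σ u' w) v')‖ := by
        congr 1
        ring
    _ ≤ _ := (norm_add_le _ _).trans (by linarith)

/-- Lipschitz bound of the other partial derivative -/
lemma lip2' {ρ C : ℝ} (hρ : 0 < ρ) {σ : ℂ → ℂ → ℂ}
    (hσ : DifferentiableOn ℂ (fun p : ℂ × ℂ => σ p.1 p.2) (Rc ρ ρ ×ˢ Rc ρ ρ))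
    (hb : ∀ ψ ∈ Rc ρ ρ, ∀ ψ' ∈ Rc ρ ρ, ‖σ ψ ψ'‖ ≤ C) {u v u' v' : ℂ} (hu : u ∈ Rc (ρ / 2) (ρ / 2))
    (hv : v ∈ Rc (ρ / 2) (ρ / 2)) (hu' : u' ∈ Rc (ρ / 2) (ρ / 2)) (hv' : v' ∈ Rc (ρ / 2) (ρ / 2)) :
    ‖deriv (fun w => σ w v) u - deriv (fun w => σ w v') u'‖ ≤
      16 * C / ρ ^ 2 * (‖v - v'‖ + ‖u - u'‖) := by
  refine lip2 (σ := fun a b => σ b a) hρ ?_ (fun a ha b hb' => hb b hb' a ha) hv hu hv' hu'
  refine hσ.comp (f := fun p : ℂ × ℂ => ((p.2, p.1) : ℂ × ℂ)) ?_ fun p hp => ⟨hp.2, hp.1⟩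
  exact (differentiable_snd.prodMk differentiable_fst).differentiableOn

theorem uqz : S_UQZ := by
  intro ρ C hρ
  refine ⟨2 * π * (64 * |C| / ρ ^ 2) + 1, by positivity, ?_⟩
  intro n σ a z z' hn hσ hb ha hcr
  have hpi := Real.pi_pos
  have hn0 : 0 < n := by omega
  obtain ⟨j0, hj0, hmax⟩ := Finset.exists_max_image (range n) (fun j => ‖z j - z' j‖)
    ⟨0, Finset.mem_range.2 hn0⟩
  rw [Finset.mem_range] at hj0
  set d := ‖z j0 - z' j0‖ with hd
  have hle : ∀ j < n, ‖z j - z' j‖ ≤ d := fun j hj => hmax j (Finset.mem_range.2 hj)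
  -- the index before `j0`
  obtain ⟨i, hi, hij⟩ : ∃ i < n, (i + 1) % n = j0 := by
    rcases Nat.eq_zero_or_pos j0 with h | h
    · refine ⟨n - 1, by omega, ?_⟩
      rw [Nat.sub_add_cancel hn0, Nat.mod_self, h]
    · refine ⟨j0 - 1, by omega, ?_⟩
      rw [Nat.sub_add_cancel h, Nat.mod_eq_of_lt hj0]
  obtain ⟨k, hk, hk2⟩ : ∃ k < n, (j0 + 1) % n = k := ⟨_, Nat.mod_lt _ hn0, rfl⟩
  obtain ⟨-, -, e1, e2⟩ := hcr i hi
  rw [hij, hk2] at e1 e2
  obtain ⟨i1, i2, -, -⟩ := hcr i hi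
  obtain ⟨j1, j2, -, -⟩ := hcr j0 hj0
  obtain ⟨k1, k2, -, -⟩ := hcr k hk
  have l1 := lip2 hρ hσ hb i1 j1 i2 j2
  have l2 := lip2' hρ hσ hb j1 k1 j2 k2
  have hzero : (0 : ℂ) ∈ Rc ρ ρ := ⟨by simpa using hρ, by simpa using hρ⟩
  have hC : 0 ≤ C := (norm_nonneg _).trans (hb 0 hzero 0 hzero)
  have hK : 0 ≤ 16 * C / ρ ^ 2 := by positivity
  have m1 : ‖deriv (fun w => σ (z i) w) (z j0) - deriv (fun w => σ (z' i) w) (z' j0)‖ ≤
      16 * C / ρ ^ 2 * (2 * d) := by
    refine l1.trans (mul_le_mul_of_nonneg_left ?_ hK)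
    linarith [hle i hi, hle j0 hj0]
  have m2 : ‖deriv (fun w => σ w (z k)) (z j0) - deriv (fun w => σ w (z' k)) (z' j0)‖ ≤
      16 * C / ρ ^ 2 * (2 * d) := by
    refine l2.trans (mul_le_mul_of_nonneg_left ?_ hK)
    linarith [hle k hk, hle j0 hj0]
  have e3 : Complex.I * a j0 * (z j0 - z' j0) / (2 * π) =
      -((deriv (fun w => σ (z i) w) (z j0) - deriv (fun w => σ (z' i) w) (z' j0)) +
        (deriv (fun w => σ w (z k)) (z j0) - deriv (fun w => σ w (z' k)) (z' j0))) := by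
    linear_combination e1 - e2
  have e4 : ‖Complex.I * a j0 * (z j0 - z' j0) / (2 * π)‖ = |(a j0 : ℝ)| * d / (2 * π) := by
    rw [norm_div, norm_mul, norm_mul, Complex.norm_I, one_mul, Complex.norm_intCast, ← hd]
    congr 1
    rw [show (2 * (π : ℂ)) = ((2 * π : ℝ) : ℂ) by push_cast; ring, Complex.norm_real,
      Real.norm_eq_abs, abs_of_pos (by positivity)]
  have e5 : |(a j0 : ℝ)| * d / (2 * π) ≤ 64 * |C| / ρ ^ 2 * d := by
    rw [← e4, e3, norm_neg]
    refine (norm_add_le _ _).trans ?_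
    rw [abs_of_nonneg hC]
    calc _ ≤ 16 * C / ρ ^ 2 * (2 * d) + 16 * C / ρ ^ 2 * (2 * d) := add_le_add m1 m2
      _ = _ := by ring
  have hd0 : 0 ≤ d := norm_nonneg _
  have e6 : d = 0 := by
    by_contra hne
    have hdpos : 0 < d := lt_of_le_of_ne hd0 (Ne.symm hne)
    have h1 := ha j0 hj0
    rw [div_le_iff₀ (by positivity)] at e5
    have h2 : |(a j0 : ℝ)| ≤ 64 * |C| / ρ ^ 2 * (2 * π) := by
      refine le_of_mul_le_mul_right ?_ hdpos
      calc |(a j0 : ℝ)| * d ≤ 64 * |C| / ρ ^ 2 * d * (2 * π) := e5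
        _ = _ := by ring
    linarith
  intro j hj
  have h1 := hle j hj
  rw [e6] at h1
  exact sub_eq_zero.1 (norm_le_zero_iff.1 h1)

end Pool.Agent.Y929.CJ
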